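import Pool.Agent.Lib.MP_8cab0e_gt.Card

set_option autoImplicit false

namespace Pool.Agent.Results.MP_8cab0e_gt.SmallCharacter

open Filter Topology Cardinal

theorem result (K : Type) (Y : K → Type) [∀ i, TopologicalSpace (Y i)] [∀ i, CompactSpace (Y i)]
    [∀ i, T2Space (Y i)] [∀ i, TotallyDisconnectedSpace (Y i)] [∀ i, FirstCountableTopology (Y i)]
    (hY : ¬ SeqCompactSpace (∀ i, Y i))
    (hK : #K < ℵ_ Ordinal.omega0 ∨ ∃ S : Set (Set K), #S ≤ #K ∧ (∀ c ∈ S, c.Countable) ∧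
      ∀ C : Set K, C.Countable → ∃ c ∈ S, C ⊆ c) :
    ∃ (X : Type) (_ : TopologicalSpace X), CompactSpace X ∧ T2Space X ∧ Infinite X ∧
      (¬ ∃ f : ℕ → X, Function.Injective f ∧ ∃ x : X, Tendsto f atTop (𝓝 x)) ∧
      (∀ x : X, ∃ B : Set (Set X), #B ≤ #K ∧ (𝓝 x).HasBasis (· ∈ B) id) ∧
      (#K < 𝔠 → ¬ ∃ e : StoneCech ℕ → X, IsEmbedding e) :=
  Pool.Agent.Lib.MP_8cab0e_gt.main K Y hY hK

end Pool.Agent.Results.MP_8cab0e_gt.SmallCharacter
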